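import Pool.Agent.helper87.TR.Spec

namespace Pool.Agent.helper87.TR

open Polynomial Finset Module FP97

lemma DT_prod (p q r : ℂ[X]) (a b c m0 m1 m2 δ : ℕ) (ha : a = 0) (hb : b = δ) (hc : c = 2 * δ)
    (hp : p ∈ degreeLT ℂ (m0 - a)) (hq : q ∈ degreeLT ℂ (m1 - b)) (hr : r ∈ degreeLT ℂ (m2 - c)) :
    p * q * r ∈ degreeLT ℂ (m0 + m1 + m2 - 2 - 3 * δ) := by
  by_cases hp0 : p = 0
  · rw [hp0, zero_mul, zero_mul]; exact zero_mem _
  by_cases hq0 : q = 0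
  · rw [hq0, mul_zero, zero_mul]; exact zero_mem _
  by_cases hr0 : r = 0
  · rw [hr0, mul_zero]; exact zero_mem _
  rw [mem_degreeLT] at *
  rw [degree_eq_natDegree hp0, Nat.cast_lt] at hp
  rw [degree_eq_natDegree hq0, Nat.cast_lt] at hq
  rw [degree_eq_natDegree hr0, Nat.cast_lt] at hr
  rw [degree_eq_natDegree (mul_ne_zero (mul_ne_zero hp0 hq0) hr0), Nat.cast_lt,
    natDegree_mul (mul_ne_zero hp0 hq0) hr0, natDegree_mul hp0 hq0]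
  omega

lemma DT_one (x : Fin 3 → Fin 3 → ℂ[X]) (a : ℂ) (c : Fin 3 → ℂ)
    (h : ∀ i, ∃ s : ℂ, ∀ q, (x i q).eval a = s * c q) :
    (X - C a) ^ 2 ∣ (Matrix.of x).det := by
  choose s hs using h
  have h1 : ∀ i q, ∃ y : ℂ[X], x i q = C (s i) * C (c q) + (X - C a) * y := by
    intro i q
    obtain ⟨y, hy⟩ := X_sub_C_dvd_sub_C_eval (a := a) (p := x i q)
    refine ⟨y, ?_⟩
    rw [← hy, hs i q, C_mul]
    ring
  choose y hy using h1
  rw [Matrix.det_fin_three]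
  simp only [Matrix.of_apply]
  rw [hy 0 0, hy 0 1, hy 0 2, hy 1 0, hy 1 1, hy 1 2, hy 2 0, hy 2 1, hy 2 2]
  refine ⟨(X - C a) * (y 0 0 * y 1 1 * y 2 2 - y 0 0 * y 1 2 * y 2 1 - y 0 1 * y 1 0 * y 2 2
      + y 0 1 * y 1 2 * y 2 0 + y 0 2 * y 1 0 * y 2 1 - y 0 2 * y 1 1 * y 2 0)
    + C (s 0) * (C (c 0) * y 1 1 * y 2 2 - C (c 0) * y 1 2 * y 2 1 - C (c 1) * y 1 0 * y 2 2
      + C (c 1) * y 1 2 * y 2 0 + C (c 2) * y 1 0 * y 2 1 - C (c 2) * y 1 1 * y 2 0)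
    + C (s 1) * (y 0 0 * C (c 1) * y 2 2 - y 0 0 * C (c 2) * y 2 1 - y 0 1 * C (c 0) * y 2 2
      + y 0 1 * C (c 2) * y 2 0 + y 0 2 * C (c 0) * y 2 1 - y 0 2 * C (c 1) * y 2 0)
    + C (s 2) * (y 0 0 * y 1 1 * C (c 2) - y 0 0 * y 1 2 * C (c 1) - y 0 1 * y 1 0 * C (c 2)
      + y 0 1 * y 1 2 * C (c 0) + y 0 2 * y 1 0 * C (c 1) - y 0 2 * y 1 1 * C (c 0)), ?_⟩
  ring

theorem DT : DT_stmt := by
  intro ι a c K δ ha x m hx
  constructor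
  · have h := (prod_pow_dvd K a ha (fun _ => 2) (Matrix.of x).det).2
    refine h fun k hk => DT_one x (a k) (c k) fun i => ?_
    exact (hx i).2 k hk
  · have hd : ∀ i (q : Fin 3), x i q ∈ degreeLT ℂ (m i - (q : ℕ) * δ) := fun i q => (hx i).1 q
    rw [Matrix.det_fin_three]
    simp only [Matrix.of_apply]
    have key : ∀ i j k : Fin 3, x i 0 * x j 1 * x k 2 ∈ degreeLT ℂ (m i + m j + m k - 2 - 3 * δ) :=
      fun i j k => DT_prod _ _ _ _ _ _ (m i) (m j) (m k) δ (by simp) (by simp) (by simp)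
        (hd i 0) (hd j 1) (hd k 2)
    have e1 := key 0 1 2
    have e2 : x 0 0 * x 1 2 * x 2 1 ∈ degreeLT ℂ (m 0 + m 1 + m 2 - 2 - 3 * δ) := by
      have := key 0 2 1
      rw [show m 0 + m 2 + m 1 = m 0 + m 1 + m 2 by ring] at this
      rwa [mul_right_comm] at this
    have e3 : x 0 1 * x 1 0 * x 2 2 ∈ degreeLT ℂ (m 0 + m 1 + m 2 - 2 - 3 * δ) := by
      have := key 1 0 2
      rw [show m 1 + m 0 + m 2 = m 0 + m 1 + m 2 by ring] at this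
      rwa [mul_comm (x 1 0)] at this
    have e4 : x 0 1 * x 1 2 * x 2 0 ∈ degreeLT ℂ (m 0 + m 1 + m 2 - 2 - 3 * δ) := by
      have := key 2 0 1
      rw [show m 2 + m 0 + m 1 = m 0 + m 1 + m 2 by ring] at this
      rwa [show x 2 0 * x 0 1 * x 1 2 = x 0 1 * x 1 2 * x 2 0 by ring] at this
    have e5 : x 0 2 * x 1 0 * x 2 1 ∈ degreeLT ℂ (m 0 + m 1 + m 2 - 2 - 3 * δ) := by
      have := key 1 2 0
      rw [show m 1 + m 2 + m 0 = m 0 + m 1 + m 2 by ring] at this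
      rwa [show x 1 0 * x 2 1 * x 0 2 = x 0 2 * x 1 0 * x 2 1 by ring] at this
    have e6 : x 0 2 * x 1 1 * x 2 0 ∈ degreeLT ℂ (m 0 + m 1 + m 2 - 2 - 3 * δ) := by
      have := key 2 1 0
      rw [show m 2 + m 1 + m 0 = m 0 + m 1 + m 2 by ring] at this
      rwa [show x 2 0 * x 1 1 * x 0 2 = x 0 2 * x 1 1 * x 2 0 by ring] at this
    exact sub_mem (add_mem (add_mem (sub_mem (sub_mem e1 e2) e3) e4) e5) e6

end Pool.Agent.helper87.TR
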